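import Mathlib

set_option autoImplicit false

open Polynomial Set Topology

namespace H729Erd

variable {K : Set ℂ}

/-- closure of polynomial functions on `K` -/
noncomputable def PolyCl (K : Set ℂ) [CompactSpace K] : Subalgebra ℂ C(K, ℂ) :=
  (polynomialFunctions K).topologicalClosure

theorem geom_mem {K : Set ℂ} [CompactSpace K] {x : C(K, ℂ)} (hx : x ∈ PolyCl K) (h : ‖x‖ < 1) :
    ∃ y ∈ PolyCl K, y * (1 - x) = 1 := by
  refine ⟨∑' n : ℕ, x ^ n, ?_, geom_series_mul_neg x h⟩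
  have hs : Summable (fun n : ℕ => x ^ n) := summable_geometric_of_norm_lt_one h
  have hcl : IsClosed (PolyCl K : Set C(K, ℂ)) := Subalgebra.isClosed_topologicalClosure _
  refine hcl.mem_of_tendsto hs.hasSum (Filter.Eventually.of_forall fun s => ?_)
  exact Subalgebra.sum_mem _ fun i _ => Subalgebra.pow_mem _ hx i

/-- `1/(z-ζ)` is in the closure -/
def Good (K : Set ℂ) [CompactSpace K] (ζ : ℂ) : Prop :=
  ∃ g ∈ PolyCl K, ∀ z : K, g z * ((z : ℂ) - ζ) = 1

theorem good_push {K : Set ℂ} [CompactSpace K] [Nonempty K] {ζ ζ' : ℂ} {δ : ℝ} 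
    (hδ : ∀ z : K, δ ≤ ‖(z : ℂ) - ζ'‖) (h : ‖ζ - ζ'‖ < δ) (hg : Good K ζ') : Good K ζ := by
  obtain ⟨g, hgm, hg1⟩ := hg
  have hδ0 : 0 < δ := lt_of_le_of_lt (norm_nonneg _) h
  have hgn : ∀ z : K, ‖g z‖ ≤ 1 / δ := by
    intro z
    have h1 := congrArg norm (hg1 z)
    rw [norm_mul, norm_one] at h1
    rw [le_div_iff₀ hδ0]
    calc ‖g z‖ * δ ≤ ‖g z‖ * ‖(z : ℂ) - ζ'‖ := by gcongr; exact hδ z
      _ = 1 := h1
  have hx : (ζ - ζ') • g ∈ PolyCl K := Subalgebra.smul_mem _ hgm _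
  have hxn : ‖(ζ - ζ') • g‖ < 1 := by
    rw [ContinuousMap.norm_lt_iff_of_nonempty]
    intro z
    rw [ContinuousMap.smul_apply, smul_eq_mul, norm_mul]
    calc ‖ζ - ζ'‖ * ‖g z‖ ≤ ‖ζ - ζ'‖ * (1 / δ) := by gcongr; exact hgn z
      _ < 1 := by rw [mul_one_div, div_lt_one hδ0]; exact h
  obtain ⟨y, hy, hy1⟩ := geom_mem hx hxn
  refine ⟨y * g, Subalgebra.mul_mem _ hy hgm, fun z => ?_⟩
  have h2 := congrArg (fun F : C(K, ℂ) => F z) hy1
  simp only [ContinuousMap.mul_apply, ContinuousMap.sub_apply, ContinuousMap.one_apply,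
    ContinuousMap.smul_apply, smul_eq_mul] at h2
  have h3 := hg1 z
  rw [ContinuousMap.mul_apply]
  linear_combination (y z) * h3 + h2

theorem good_large {K : Set ℂ} [CompactSpace K] [Nonempty K] {ζ : ℂ} {R : ℝ}
    (hR : ∀ z : K, ‖(z : ℂ)‖ ≤ R) (h : R < ‖ζ‖) : Good K ζ := by
  have hζ : 0 < ‖ζ‖ := by
    obtain ⟨z⟩ := (inferInstance : Nonempty K)
    exact lt_of_le_of_lt ((norm_nonneg _).trans (hR z)) h
  have hζ0 : ζ ≠ 0 := norm_pos_iff.mp hζ
  let i : C(K, ℂ) := Polynomial.toContinuousMapOn (X : ℂ[X]) K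
  have hi : i ∈ PolyCl K := by
    apply Subalgebra.le_topologicalClosure
    exact ⟨X, by simp, rfl⟩
  have hix : ∀ z : K, i z = z := by
    intro z; simp [i]
  have hx : ζ⁻¹ • i ∈ PolyCl K := Subalgebra.smul_mem _ hi _
  have hxn : ‖ζ⁻¹ • i‖ < 1 := by
    rw [ContinuousMap.norm_lt_iff_of_nonempty]
    intro z
    rw [ContinuousMap.smul_apply, smul_eq_mul, norm_mul, hix, norm_inv, inv_mul_lt_iff₀ hζ, mul_one]
    exact lt_of_le_of_lt (hR z) h
  obtain ⟨y, hy, hy1⟩ := geom_mem hx hxn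
  refine ⟨(-ζ⁻¹) • y, Subalgebra.smul_mem _ hy _, fun z => ?_⟩
  have h2 := congrArg (fun F : C(K, ℂ) => F z) hy1
  simp only [ContinuousMap.mul_apply, ContinuousMap.sub_apply, ContinuousMap.one_apply,
    ContinuousMap.smul_apply, smul_eq_mul, hix] at h2
  rw [ContinuousMap.smul_apply, smul_eq_mul]
  field_simp at h2 ⊢
  linear_combination h2

theorem good_path {K : Set ℂ} [CompactSpace K] [Nonempty K] (hK : IsCompact K) {R : ℝ}
    (hR : ∀ z : K, ‖(z : ℂ)‖ ≤ R) (p : ℝ → ℂ) (hp : ContinuousOn p (Ioi 0))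
    (hpK : ∀ t, 0 < t → p t ∉ K) {T : ℝ} (hT0 : 0 < T) (hT : R < ‖p T‖) (t : ℝ) (ht : 0 < t) :
    Good K (p t) := by
  have key : ∀ t : Ioi (0:ℝ), ∀ᶠ s : Ioi (0:ℝ) in 𝓝 t, (Good K (p t) ↔ Good K (p s)) := by
    intro t
    have hne : K.Nonempty := by
      obtain ⟨z⟩ := (inferInstance : Nonempty K)
      exact ⟨z, z.2⟩
    have hd : 0 < Metric.infDist (p t) K := by
      rw [← hK.isClosed.notMem_iff_infDist_pos hne]
      exact hpK t t.2
    set δ := Metric.infDist (p t) K / 2 with hδ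
    have hδ0 : 0 < δ := by positivity
    have hcont : Continuous (fun s : Ioi (0:ℝ) => p s) := continuousOn_iff_continuous_restrict.mp hp
    have hev : ∀ᶠ s : Ioi (0:ℝ) in 𝓝 t, ‖p s - p t‖ < δ := by
      have := hcont.continuousAt (x := t)
      have h2 := Metric.continuousAt_iff'.mp this δ hδ0
      filter_upwards [h2] with s hs
      rwa [dist_eq_norm] at hs
    filter_upwards [hev] with s hs
    have h1 : ∀ z : K, 2 * δ ≤ ‖(z : ℂ) - p t‖ := by
      intro z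
      have := Metric.infDist_le_dist_of_mem (x := p t) z.2
      rw [dist_comm, dist_eq_norm] at this
      linarith
    have h2 : ∀ z : K, δ ≤ ‖(z : ℂ) - p s‖ := by
      intro z
      have h3 : ‖(z : ℂ) - p t‖ ≤ ‖(z : ℂ) - p s‖ + ‖p s - p t‖ := by
        have : (z : ℂ) - p t = ((z : ℂ) - p s) + (p s - p t) := by ring
        rw [this]; exact norm_add_le _ _
      linarith [h1 z]
    constructor
    · intro hg
      exact good_push (δ := 2 * δ) h1 (by linarith) hg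
    · intro hg
      exact good_push (δ := δ) h2 (by rw [norm_sub_rev]; exact hs) hg
  have hclopen : IsClopen {s : Ioi (0:ℝ) | Good K (p s)} := by
    constructor
    · rw [← isOpen_compl_iff, isOpen_iff_mem_nhds]
      intro s hs
      filter_upwards [key s] with u hu
      exact fun h => hs (hu.mpr h)
    · rw [isOpen_iff_mem_nhds]
      intro s hs
      filter_upwards [key s] with u hu
      exact hu.mp hs
  haveI : PreconnectedSpace (Ioi (0:ℝ)) := Subtype.preconnectedSpace isPreconnected_Ioi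
  have huniv := hclopen.eq_univ ⟨⟨T, hT0⟩, good_large hR hT⟩
  have : (⟨t, ht⟩ : Ioi (0:ℝ)) ∈ {s : Ioi (0:ℝ) | Good K (p s)} := by rw [huniv]; trivial
  exact this

/-- From a good point one gets polynomial approximation. -/
theorem exists_poly {K : Set ℂ} [CompactSpace K] {ζ : ℂ} (hg : Good K ζ) (hK : ∀ z : K, (z:ℂ) ≠ ζ)
    {ε : ℝ} (hε : 0 < ε) : ∃ q : ℂ[X], ∀ z ∈ K, ‖q.eval z - 1 / (z - ζ)‖ < ε := by
  obtain ⟨g, hgm, hg1⟩ := hg
  have h1 : g ∈ closure (polynomialFunctions K : Set C(K, ℂ)) := hgm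
  rw [Metric.mem_closure_iff] at h1
  obtain ⟨q', hq', hd⟩ := h1 ε hε
  obtain ⟨q, -, rfl⟩ := hq'
  refine ⟨q, fun z hz => ?_⟩
  have h2 := ContinuousMap.dist_lt_iff hε |>.mp hd ⟨z, hz⟩
  rw [dist_comm, dist_eq_norm] at h2
  have h3 : g ⟨z, hz⟩ = 1 / (z - ζ) := by
    have h4 := hg1 ⟨z, hz⟩
    have h5 : z - ζ ≠ 0 := sub_ne_zero.mpr (hK ⟨z, hz⟩)
    rw [eq_div_iff h5]; exact h4
  rw [← h3]
  simpa using h2

end H729Erd
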