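import Mathlib

set_option autoImplicit false

open Polynomial Set Topology

namespace H729Erd

/-- conjugate reversed polynomial -/
noncomputable def crev (P : ℂ[X]) : ℂ[X] := (P.map (starRingEnd ℂ)).reverse

theorem natDegree_mapc (P : ℂ[X]) : (P.map (starRingEnd ℂ)).natDegree = P.natDegree :=
  natDegree_map_eq_of_injective (starRingEnd ℂ).injective P

theorem crev_eval (P : ℂ[X]) {z : ℂ} (hz : z ≠ 0) :
    (crev P).eval z = z ^ P.natDegree * (starRingEnd ℂ) (P.eval ((starRingEnd ℂ) z)⁻¹) := by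
  have hz' : z⁻¹ ≠ 0 := inv_ne_zero hz
  let this : Invertible z⁻¹ := invertibleOfNonzero hz'
  have h := eval₂_reverse_mul_pow (RingHom.id ℂ) z⁻¹ (P.map (starRingEnd ℂ))
  rw [natDegree_mapc] at h
  simp only [invOf_eq_inv, inv_inv] at h
  have h2 : (P.map (starRingEnd ℂ)).eval z⁻¹ = (starRingEnd ℂ) (P.eval ((starRingEnd ℂ) z)⁻¹) := by
    rw [Polynomial.eval_map]
    conv_lhs => rw [show z⁻¹ = (starRingEnd ℂ) (((starRingEnd ℂ) z)⁻¹) by simp]
    rw [Polynomial.eval₂_at_apply]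
  have h3 : (crev P).eval z * (z⁻¹) ^ P.natDegree = (P.map (starRingEnd ℂ)).eval z⁻¹ := by
    simpa [crev, Polynomial.eval₂_id] using h
  rw [h2] at h3
  rw [← h3]
  have : z ^ P.natDegree ≠ 0 := pow_ne_zero _ hz
  rw [inv_pow]
  field_simp

theorem crev_norm_circle (P : ℂ[X]) {z : ℂ} (hz : ‖z‖ = 1) :
    ‖(crev P).eval z‖ = ‖P.eval z‖ := by
  have hz0 : z ≠ 0 := by
    intro h; rw [h, norm_zero] at hz; exact zero_ne_one hz
  rw [crev_eval P hz0, norm_mul, norm_pow, hz, one_pow, one_mul, RCLike.norm_conj]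
  congr 2
  have h1 : z * (starRingEnd ℂ) z = 1 := by
    rw [Complex.mul_conj, Complex.normSq_eq_norm_sq, hz]; simp
  exact (eq_inv_of_mul_eq_one_left h1).symm

theorem crev_le (P : ℂ[X]) (hP : ∀ z, ‖z‖ ≤ 1 → P.eval z ≠ 0) {z : ℂ} (hz : ‖z‖ ≤ 1) :
    ‖(crev P).eval z‖ ≤ ‖P.eval z‖ := by
  have hd : DiffContOnCl ℂ (fun z => (crev P).eval z / P.eval z) (Metric.ball 0 1) := by
    apply DifferentiableOn.diffContOnCl
    rw [closure_ball (0:ℂ) one_ne_zero]
    intro x hx
    have hx' : P.eval x ≠ 0 := hP x (by simpa using hx)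
    exact ((crev P).differentiable.differentiableAt.div P.differentiable.differentiableAt hx').differentiableWithinAt
  have h := Complex.norm_le_of_forall_mem_frontier_norm_le (C := 1) Metric.isBounded_ball hd ?_ 
    (z := z) (by rw [closure_ball (0:ℂ) one_ne_zero]; simpa using hz)
  · rw [norm_div, div_le_one (norm_pos_iff.mpr (hP z hz))] at h
    exact h
  · intro w hw
    rw [frontier_ball (0:ℂ) one_ne_zero] at hw
    have hw' : ‖w‖ = 1 := by simpa using hw
    rw [norm_div, crev_norm_circle P hw', div_self]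
    exact (norm_pos_iff.mpr (hP w hw'.le)).ne'

/-- the polynomial with all zeros on the circle -/
noncomputable def fpoly (P : ℂ[X]) (n : ℕ) : ℂ[X] := X ^ (n - P.natDegree) * crev P + P

theorem crev_monic (P : ℂ[X]) (h0 : P.coeff 0 = 1) : (crev P).Monic := by
  rw [Monic, crev, reverse_leadingCoeff, trailingCoeff]
  have h1 : (P.map (starRingEnd ℂ)).coeff 0 = 1 := by rw [coeff_map, h0]; simp
  have h2 : (P.map (starRingEnd ℂ)).natTrailingDegree = 0 := by
    rw [natTrailingDegree_eq_zero]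
    right; rw [h1]; exact one_ne_zero
  rw [h2, h1]

theorem crev_natDegree (P : ℂ[X]) (h0 : P.coeff 0 = 1) : (crev P).natDegree = P.natDegree := by
  have h1 : (P.map (starRingEnd ℂ)).coeff 0 = 1 := by rw [coeff_map, h0]; simp
  have h2 : (P.map (starRingEnd ℂ)).natTrailingDegree = 0 := by
    rw [natTrailingDegree_eq_zero]
    right; rw [h1]; exact one_ne_zero
  rw [crev, reverse_natDegree, h2, natDegree_mapc, Nat.sub_zero]

theorem fpoly_deg (P : ℂ[X]) (h0 : P.coeff 0 = 1) {n : ℕ} (hn : P.natDegree < n) :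
    (fpoly P n).Monic ∧ (fpoly P n).natDegree = n := by
  have hm : (X ^ (n - P.natDegree) * crev P).Monic := (monic_X_pow _).mul (crev_monic P h0)
  have hd : (X ^ (n - P.natDegree) * crev P).natDegree = n := by
    rw [(monic_X_pow _).natDegree_mul (crev_monic P h0), natDegree_X_pow, crev_natDegree P h0]
    omega
  constructor
  · apply hm.add_of_left
    apply degree_lt_degree
    rw [hd]; exact hn
  · rw [fpoly, natDegree_add_eq_left_of_natDegree_lt, hd]
    rw [hd]; exact hn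

theorem fpoly_roots (P : ℂ[X]) (hP : ∀ z, ‖z‖ ≤ 1 → P.eval z ≠ 0) {n : ℕ}
    (hn : P.natDegree < n) {z : ℂ} (hz : (fpoly P n).eval z = 0) : ‖z‖ ≤ 1 := by
  by_contra hcon
  push Not at hcon
  have hz0 : z ≠ 0 := by
    intro h; rw [h, norm_zero] at hcon; linarith
  have hzn : 0 < ‖z‖ := norm_pos_iff.mpr hz0
  set w : ℂ := ((starRingEnd ℂ) z)⁻¹ with hw
  have hwn : ‖w‖ = ‖z‖⁻¹ := by rw [hw, norm_inv, RCLike.norm_conj]
  have hw0 : w ≠ 0 := by rw [hw]; exact inv_ne_zero ((_root_.map_ne_zero _).mpr hz0)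
  have hw1 : ‖w‖ < 1 := by rw [hwn]; exact inv_lt_one_of_one_lt₀ hcon
  have hconjw : ((starRingEnd ℂ) w)⁻¹ = z := by rw [hw]; simp
  have e1 : ‖P.eval z‖ = ‖z‖ ^ n * ‖P.eval w‖ := by
    rw [fpoly, eval_add, eval_mul, eval_pow, eval_X, crev_eval P hz0] at hz
    have : P.eval z = - (z ^ (n - P.natDegree) * (z ^ P.natDegree * (starRingEnd ℂ) (P.eval w))) := by
      rw [← hw] at hz
      linear_combination hz
    rw [this, norm_neg, norm_mul, norm_mul, norm_pow, norm_pow, RCLike.norm_conj, ← mul_assoc, ← pow_add]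
    congr 2; omega
  have e2 : ‖(crev P).eval w‖ = ‖w‖ ^ P.natDegree * ‖P.eval z‖ := by
    rw [crev_eval P hw0, hconjw, norm_mul, norm_pow, RCLike.norm_conj]
  have e3 := crev_le P hP hw1.le
  have hpos : 0 < ‖P.eval w‖ := norm_pos_iff.mpr (hP w hw1.le)
  rw [e2, e1, hwn, ← mul_assoc] at e3
  have e4 : ‖z‖⁻¹ ^ P.natDegree * ‖z‖ ^ n = ‖z‖ ^ (n - P.natDegree) := by
    rw [inv_pow, pow_sub₀ _ hzn.ne' hn.le, mul_comm]
  rw [e4] at e3
  have e5 : 1 < ‖z‖ ^ (n - P.natDegree) := one_lt_pow₀ hcon (by omega)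
  nlinarith

end H729Erd
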