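import Mathlib
import Pool.Agent.H729.Erd.Runge

set_option autoImplicit false

open Polynomial Set Topology

namespace H729Erd

/-- radii of the walls -/
noncomputable def rad (N k : ℕ) : ℝ := 1 / 2 + (k + 1) / (2 * (N + 2))

/-- the `k`-th wall: a circular arc of radius `rad N k` with a gap on the right (k even) or left -/
def wall (N k : ℕ) : Set ℂ := {z | ‖z‖ = rad N k ∧ (-1 : ℝ) ^ k * z.re ≤ rad N k / 2}

def walls (N : ℕ) : Set ℂ := insert 0 (⋃ k ∈ Finset.range (N + 1), wall N k)

theorem rad_gt (N k : ℕ) : 1 / 2 < rad N k := by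
  unfold rad; have : (0:ℝ) < (k + 1) / (2 * (N + 2)) := by positivity
  linarith

theorem rad_lt {N k : ℕ} (h : k ≤ N) : rad N k < 1 := by
  unfold rad
  have : ((k:ℝ) + 1) / (2 * (N + 2)) < 1 / 2 := by
    rw [div_lt_div_iff₀ (by positivity) (by norm_num)]
    have : (k:ℝ) ≤ N := by exact_mod_cast h
    linarith
  linarith

theorem rad_mono {N k l : ℕ} (h : k < l) : rad N k < rad N l := by
  unfold rad
  have : (k:ℝ) < l := by exact_mod_cast h
  have : ((k:ℝ) + 1) / (2 * (N + 2)) < (l + 1) / (2 * (N + 2)) := by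
    apply div_lt_div_of_pos_right _ (by positivity)
    linarith
  linarith

theorem isClosed_wall (N k : ℕ) : IsClosed (wall N k) := by
  apply IsClosed.inter
  · exact isClosed_eq continuous_norm continuous_const
  · exact isClosed_le (continuous_const.mul Complex.continuous_re) continuous_const

theorem walls_compact (N : ℕ) : IsCompact (walls N) := by
  apply Metric.isCompact_of_isClosed_isBounded
  · rw [walls, insert_eq]
    apply isClosed_singleton.union
    exact isClosed_biUnion_finset fun k _ => isClosed_wall N k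
  · apply (Metric.isBounded_closedBall (x := (0:ℂ)) (r := 1)).subset
    intro z hz
    rcases hz with rfl | hz
    · simp
    · simp only [mem_iUnion, Finset.mem_range] at hz
      obtain ⟨k, hk, hz⟩ := hz
      rw [mem_closedBall_zero_iff, hz.1]
      exact (rad_lt (by omega)).le

/-- the corridor -/
noncomputable def cor (N : ℕ) (t : ℝ) : ℂ :=
  (t : ℂ) * Complex.exp ((Real.pi * ((t - 1 / 2) * (2 * (N + 2)) - 1) : ℝ) * Complex.I)

theorem cor_norm (N : ℕ) {t : ℝ} (ht : 0 < t) : ‖cor N t‖ = t := by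
  rw [cor, norm_mul, Complex.norm_exp_ofReal_mul_I, mul_one, Complex.norm_real, Real.norm_of_nonneg ht.le]

theorem cor_cont (N : ℕ) : Continuous (cor N) := by
  unfold cor; fun_prop

theorem cor_notMem (N : ℕ) {t : ℝ} (ht : 0 < t) : cor N t ∉ walls N := by
  intro h
  rcases h with h | h
  · have := cor_norm N ht
    rw [h, norm_zero] at this; linarith
  · simp only [mem_iUnion, Finset.mem_range] at h
    obtain ⟨k, hk, hn, hre⟩ := h
    rw [cor_norm N ht] at hn
    have hφ : Real.pi * ((t - 1 / 2) * (2 * (N + 2)) - 1) = k * Real.pi := by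
      rw [hn, rad]; field_simp; ring
    have hc : cor N t = ((-1 : ℝ) ^ k * t : ℝ) := by
      rw [cor, hφ]
      push_cast
      rw [show ((k:ℂ) * (Real.pi : ℂ) * Complex.I) = (k:ℂ) * ((Real.pi : ℂ) * Complex.I) by ring,
        Complex.exp_nat_mul, Complex.exp_pi_mul_I]
      ring
    rw [hc, Complex.ofReal_re, ← mul_assoc, ← pow_add, Even.neg_one_pow ⟨k, rfl⟩, one_mul, ← hn] at hre
    linarith

theorem exists_G (N : ℕ) : ∃ G : ℂ[X], G.eval 0 = 0 ∧
    ∀ k ≤ N, ∀ z ∈ wall N k, 1 / 4 ≤ (G.eval z).re := by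
  have hKc := walls_compact N
  have hinst : CompactSpace (walls N) := isCompact_iff_compactSpace.mp hKc
  have hne : Nonempty (walls N) := ⟨⟨0, by left; rfl⟩⟩
  have hbd : ∀ z : walls N, ‖(z : ℂ)‖ ≤ 1 := by
    rintro ⟨z, hz⟩
    rcases hz with rfl | hz
    · simp
    · simp only [mem_iUnion, Finset.mem_range] at hz
      obtain ⟨k, hk, hz⟩ := hz
      change ‖z‖ ≤ 1
      rw [hz.1]
      exact (rad_lt (by omega)).le
  have hgood : Good (walls N) (cor N (1 / 8)) := 
    good_path hKc hbd (cor N) (cor_cont N).continuousOn (fun t ht => cor_notMem N ht)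
      (T := 2) (by norm_num) (by rw [cor_norm N (by norm_num)]; norm_num) (1 / 8) (by norm_num)
  set a := cor N (1 / 8) with ha
  have han : ‖a‖ = 1 / 8 := cor_norm N (by norm_num)
  have hane : ∀ z : walls N, (z : ℂ) ≠ a := by
    rintro ⟨z, hz⟩ h
    apply cor_notMem N (t := 1 / 8) (by norm_num)
    rw [← ha, ← h]; exact hz
  obtain ⟨q, hq⟩ := exists_poly hgood hane (ε := 1) one_pos
  set p : ℂ[X] := 1 + C a * q with hp
  have hpz : ∀ z ∈ walls N, ‖p.eval z - (1 + a * (1 / (z - a)))‖ < 1 / 8 := by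
    intro z hz
    have h1 := hq z hz
    rw [hp, eval_add, eval_one, eval_mul, eval_C]
    have : 1 + a * eval z q - (1 + a * (1 / (z - a))) = a * (eval z q - 1 / (z - a)) := by ring
    rw [this, norm_mul, han]
    linarith
  have ha0 : a ≠ 0 := by
    intro h; rw [h, norm_zero] at han; norm_num at han
  have hp0 : ‖p.eval 0‖ < 1 / 8 := by
    have := hpz 0 (by left; rfl)
    have h2 : (1 + a * (1 / (0 - a))) = 0 := by
      field_simp; ring
    rwa [h2, sub_zero] at this
  refine ⟨p - C (p.eval 0), by simp, fun k hk z hz => ?_⟩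
  have hzK : z ∈ walls N := by
    right
    simp only [mem_iUnion, Finset.mem_range]
    exact ⟨k, by omega, hz⟩
  have h1 := hpz z hzK
  have hzn : 1 / 2 < ‖z‖ := by rw [hz.1]; exact rad_gt N k
  have h2 : ‖a * (1 / (z - a))‖ ≤ 1 / 3 := by
    rw [norm_mul, norm_div, norm_one, han]
    have h3 : 3 / 8 ≤ ‖z - a‖ := by
      have := norm_sub_norm_le z a
      rw [han] at this; linarith
    have h4 : 1 / ‖z - a‖ ≤ 8 / 3 := by
      rw [div_le_iff₀ (by linarith)]; linarith
    linarith
  have h5 : (p.eval z).re = 1 + (a * (1 / (z - a))).re + (p.eval z - (1 + a * (1 / (z - a)))).re := by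
    simp only [Complex.sub_re, Complex.add_re, Complex.one_re]; ring
  have h6 := (abs_le.mp ((Complex.abs_re_le_norm _).trans h2)).1
  have h7 := (abs_le.mp ((Complex.abs_re_le_norm _).trans h1.le)).1
  have h8 := (abs_le.mp ((Complex.abs_re_le_norm _).trans hp0.le)).2
  rw [eval_sub, eval_C, Complex.sub_re, h5]
  linarith

end H729Erd
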